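import Pool.Agent.R141.TB.Fin

/-!
Sun's conjecture (2016) on `a(n) = ∑_j C(n+j,j) C(n,j) C(n-j,j)`: for every prime `p > 3` and every
positive integer `n` the number `(a(pn) - a(n)) / (pn)^3` is a `p`-adic integer.
-/

namespace Pool.Agent.Results.MP_ebce10_nt.TripleBinomialSupercongruence

open Finset

/-- `a(n) = ∑_{j=0}^{n} C(n+j,j) C(n,j) C(n-j,j)` -/
def a (n : ℕ) : ℕ := ∑ j ∈ range (n + 1), (n + j).choose j * n.choose j * (n - j).choose j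

theorem result (p n : ℕ) (hp : p.Prime) (hp3 : 3 < p) (hn : 0 < n) :
    ¬ p ∣ (((a (p * n) : ℚ) - (a n : ℚ)) / (((p * n : ℕ) : ℚ)) ^ 3).den := by
  classical
  -- write n = p ^ r * n'
  obtain ⟨r, n', hn', hnr⟩ := Nat.exists_eq_pow_mul_and_not_dvd hn.ne' p hp.ne_one
  have h1 := Pool.Agent.R141.TB.main p n r hp hp3 hn ⟨n', hnr⟩
  have ha : ∀ m, a m = Pool.Agent.R141.TB.a m := fun _ => rfl
  rw [← ha, ← ha] at h1
  obtain ⟨c, hc⟩ := h1
  have hp0 : (p : ℚ) ≠ 0 := by exact_mod_cast hp.ne_zero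
  have hn0 : (n' : ℚ) ≠ 0 := by
    have : n' ≠ 0 := by
      rintro rfl
      exact hn' (dvd_zero _)
    exact_mod_cast this
  have h2 : (((a (p * n) : ℚ) - (a n : ℚ)) / (((p * n : ℕ) : ℚ)) ^ 3) = (c : ℚ) / ((n' ^ 3 : ℕ) : ℚ) := by
    have h3 : (a (p * n) : ℚ) - (a n : ℚ) = (p : ℚ) ^ (3 + 3 * r) * c := by exact_mod_cast hc
    rw [h3, hnr]
    push_cast
    field_simp
    ring
  rw [h2]
  intro hdvd
  have h4 : ((c : ℚ) / ((n' ^ 3 : ℕ) : ℚ)).den ∣ n' ^ 3 := by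
    have h5 := Rat.den_dvd c ((n' ^ 3 : ℕ) : ℤ)
    rw [Rat.divInt_eq_div] at h5
    exact_mod_cast h5
  exact hn' (hp.dvd_of_dvd_pow (hdvd.trans h4))

end Pool.Agent.Results.MP_ebce10_nt.TripleBinomialSupercongruence
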